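import Pool.Agent.Helper63.EI.Eck

/-!
# Hassett's conjecture for cubic fourfolds with an Eckardt point

Let `X` be a smooth cubic fourfold with an Eckardt point: one of its hyperplane sections is a cone over a smooth
cubic surface `S`. The planes over the lines of `S` intersect in `1` (the lines do not meet) or in `-1` (they meet).
We use only the seven planes over the lines `E₁, …, E₆` and `H - E₁ - E₂` (`IsCone`). Let `A(X)` be the lattice of
the Hodge classes in `H^4(X, ℤ)`. By Hassett `X` is rational if `T.(h² - P)` is odd for some `T` in `A(X)` and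
some plane `P` (`OddSection`). The following is proved.

* If `X` is not in this locus then `A(X) = ⟨planes of the cone⟩ + K`, where `K` is the lattice of the classes
  which are orthogonal to these planes (and to `h²`).
* `X` has an associated K3 surface if and only if it is in the locus or `k.k` is not divisible by `4` for
  some `k` in `K`.
* In the second case `X` is in the Hassett divisors `C_d` for all squarefree `d ≥ 3 k.k` with `d = 6` modulo `12` and
  for all squarefree `d ≥ 3 k.k + 8` with `d = 2` modulo `12`. So it is rational if `k.k` is `6`, `10` or `14`.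
* Let `A(X)` be generated by `h²` and classes of discriminant less than `36`. Then `X` has an associated K3 surface
  if and only if it is in the locus or in `C_42`. So it is rational if it has an associated K3 surface.
* If the rank of `A(X)` is at least `18` then `X` is in the locus, so it is rational and has an associated K3
  surface.
-/

set_option autoImplicit false

namespace Pool.Agent.Results.MP_ffd2c1_ag.EckardtPoint

open Pool.Agent.Y95.Q Pool.Agent.Y95.Q.H4

/-- `X` is in the Hassett divisor `C_d`: there is a Hodge class `v` such that `h` and `v` span a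
saturated group of discriminant `d`. -/
def InDivisor {X : CubicFourfold} (H : H4 X) (d : ℤ) : Prop :=
  ∃ v, H.IsHodge v ∧ H.Saturated v ∧ H.disc v = d

/-- The published theorem that the cubic fourfolds in `C_14`, `C_26`, `C_38` and `C_42` are rational. -/
def FourDivisors {X : CubicFourfold} (H : H4 X) : Prop :=
  ∀ d : ℤ, (d = 14 ∨ d = 26 ∨ d = 38 ∨ d = 42) → InDivisor H d → X.IsRational

/-- The group of Hodge classes is generated by `h` and by classes of discriminant less than `n`. -/
def Generated {X : CubicFourfold} (H : H4 X) (n : ℤ) : Prop :=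
  ∀ v, H.IsHodge v → v ∈ Submodule.span ℤ (insert H.h {w | H.IsHodge w ∧ H.disc w < n})

/-- `T.(h - P)` is odd for some plane `P` and some Hodge class `T`. -/
def OddSection {X : CubicFourfold} (H : H4 X) : Prop :=
  ∃ (P : X.Plane) (T : Fin 23 → ℤ), H.IsHodge T ∧ Odd (H.ip T (H.h - H.cl P))

/-- The planes intersect as the planes over the lines `E₁, …, E₆` and `H - E₁ - E₂` in the cone over a
cubic surface: the first six intersect in `1`, and the seventh intersects the first two in `-1` and the
others in `1`. -/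
def IsCone {X : CubicFourfold} (H : H4 X) (P : Fin 6 → X.Plane) (Q : X.Plane) : Prop :=
  (∀ i j, i ≠ j → H.ip (H.cl (P i)) (H.cl (P j)) = 1) ∧
    ∀ i : Fin 6, H.ip (H.cl Q) (H.cl (P i)) = if i.val < 2 then -1 else 1

/-- `k` is a Hodge class orthogonal to the seven planes and to `h`. -/
def InK {X : CubicFourfold} (H : H4 X) (P : Fin 6 → X.Plane) (Q : X.Plane) (k : Fin 23 → ℤ) : Prop :=
  H.IsHodge k ∧ H.ip H.h k = 0 ∧ (∀ i, H.ip (H.cl (P i)) k = 0) ∧ H.ip (H.cl Q) k = 0

/-- **Hassett's conjecture for cubic fourfolds with an Eckardt point.** -/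
theorem result {X : CubicFourfold} {H : H4 X} (hH : H.IsCohomology) :
    ∀ P Q, IsCone H P Q →
      -- the splitting
      (OddSection H ∨ ∀ T, H.IsHodge T → ∃ a k, T = a + k ∧ InK H P Q k ∧
        a ∈ Submodule.span ℤ (insert (H.cl Q) (Set.range fun i => H.cl (P i)))) ∧
      -- the criterion for an associated K3 surface
      (H.HasK3 ↔ OddSection H ∨ ∃ k, InK H P Q k ∧ ¬ 4 ∣ H.ip k k) ∧
      -- the divisors which contain `X`
      (∀ k d, InK H P Q k → ¬ 4 ∣ H.ip k k → Squarefree d →
        (d % 12 = 6 ∧ 3 * H.ip k k ≤ d) ∨ (d % 12 = 2 ∧ 3 * H.ip k k + 8 ≤ d) → InDivisor H d) ∧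
      -- generators of small discriminant
      (Generated H 36 → (H.HasK3 ↔ OddSection H ∨ InDivisor H 42)) ∧
      (Generated H 36 → FourDivisors H → H.HasK3 → X.IsRational) ∧
      -- large rank
      (18 ≤ H.rank → X.IsRational ∧ H.HasK3) := by
  have odd_iff : ¬ H.AllEven → OddSection H := by
    intro h
    unfold H4.AllEven at h
    push Not at h
    obtain ⟨P, hP, T, hT, hodd⟩ := h
    rw [Int.not_even_iff_odd] at hodd
    obtain ⟨P', rfl⟩ := (hH.cl_range P).2 hP
    exact ⟨P', T, hT, hodd⟩
  have odd_iff' : OddSection H → ¬ H.AllEven := by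
    rintro ⟨P, T, hT, ho⟩ hE
    exact (Int.not_even_iff_odd.2 ho) (hE _ ((hH.cl_range _).1 ⟨P, rfl⟩) T hT)
  have pl : ∀ P : X.Plane, H.IsPl (H.cl P) := fun P => (hH.cl_range _).1 ⟨P, rfl⟩
  intro P Q hPQ
  have E : Pool.Agent.Helper63.EI.Eck H (fun i => H.cl (P i)) (H.cl Q) :=
    ⟨fun i => pl _, pl _, hPQ.1, hPQ.2 0, hPQ.2 1, fun i hi => by
      rw [hPQ.2 i, if_neg (by omega)]⟩
  have crit : H.HasK3 ↔ OddSection H ∨ ∃ k, InK H P Q k ∧ ¬ 4 ∣ H.ip k k := by
    rw [E.k3 hH]
    constructor
    · rintro (h | ⟨k, hk, hP, h4⟩)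
      · exact Or.inl (odd_iff h)
      · exact Or.inr ⟨k, ⟨hk, hP.h hH E, hP.1, hP.2⟩, h4⟩
    · rintro (h | ⟨k, ⟨hk, -, h1, h2⟩, h4⟩)
      · exact Or.inl (odd_iff' h)
      · exact Or.inr ⟨k, hk, ⟨h1, h2⟩, h4⟩
  have g36 : Generated H 36 → H.HasK3 → OddSection H ∨ InDivisor H 42 := by
    intro hG h
    by_cases hE : H.AllEven
    · right
      obtain ⟨v, hv, h4⟩ := (Pool.Agent.Helper63.EI.hasK3_iff hH (E.isD4 hH)).1 h
      exact E.gen36 hH hE hG hv h4
    · exact Or.inl (odd_iff hE)
  refine ⟨?_, crit, ?_, ?_, ?_, ?_⟩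
  · by_cases hE : H.AllEven
    · right
      intro T hT
      obtain ⟨a, k, h1, h2, h3, h4, -⟩ := E.split hH hE hT
      exact ⟨a, k, h1, ⟨h3, h4.h hH E, h4.1, h4.2⟩, h2⟩
    · exact Or.inl (odd_iff hE)
  · rintro k d ⟨hk, -, h1, h2⟩ h4 hs h
    exact E.div hH hk ⟨h1, h2⟩ h4 hs h
  · intro hG
    refine ⟨g36 hG, ?_⟩
    rintro (h | h)
    · exact crit.2 (Or.inl h)
    · exact Pool.Agent.Helper36K9.CF.hasK3_of h (by norm_num)
  · intro hG hR h
    rcases g36 hG h with ⟨P', T, hT, ho⟩ | h
    · exact hH.hassett P' T hT ho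
    · exact hR 42 (by norm_num) h
  · intro h18
    exact hH.of_not_allEven (Pool.Agent.Helper63.EI.rank_pl hH _ (fun i => pl (P i))
      (Pool.Agent.Helper63.EI.meet_six E) (by omega))

end Pool.Agent.Results.MP_ffd2c1_ag.EckardtPoint
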