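import Pool.Agent.Helper63.EI.Frame

/-!
# Hassett's conjecture for cubic fourfolds with an involution

Let `X` be a smooth cubic fourfold and let `A(X)` be the lattice of its Hodge classes in `H^4(X, ℤ)`. We
suppose that `A(X)` contains a copy of the lattice `D₄(2)` orthogonal to `h²` (`IsD4`). This is a family of
dimension `16`. It contains all cubic fourfolds with an involution: by Laza, Pearlstein, Zhang and by Marquand the
part of `A(X)` orthogonal to `h²` then contains `E₆(2)`, `E₈(2)` or `D₉(2)`, and each of these lattices contains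
`D₄(2)`. For the very general cubic fourfold with an involution of the first two kinds all discriminants of Hodge
classes are divisible by `4`, and there is no associated K3 surface. The following is proved for all `X` with
`D₄(2)` in `A(X)`.

* For every Hodge class `v` and every squarefree `d ≥ disc v` with `d = disc v` modulo `12` the
  fourfold `X` is in the Hassett divisor `C_d`. If `v` has an odd product with a class of `D₄(2)` then
  `d = disc v` modulo `6` suffices; for instance, `X` is in `C_14` if the class of a plane has an odd product with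
  a class of `D₄(2)`.
* `X` has an associated K3 surface if and only if `4` does not divide the discriminant of some Hodge class.
* If there is such a class of discriminant less than `50`, or a class of discriminant less than `44` which has an
  odd product with a class of `D₄(2)`, then `X` is in `C_38` or in `C_42`, so it is rational.
* Let `A(X)` be generated by `h²` and classes of discriminant less than `32`. Then `X` has an associated K3 surface
  if and only if it is in `C_38` or in `C_42`. So it is rational if it has an associated K3 surface.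
* Let `A(X)` be generated by `h²` and classes of discriminant less than `44`. If some Hodge class has an odd
  product with a class of `D₄(2)` then `X` is in `C_38` or in `C_42`, so it is rational.

If the rank of `A(X)` is at least `13` then `4` does not divide the discriminant of some Hodge class (for all cubic
fourfolds). Hence `X` is rational if the rank of `A(X)` is at least `13`, `A(X)` is generated by `h²` and classes of
discriminant less than `32`, and `A(X)` contains `D₄(2)` or `X` contains a plane.

Idea: `D₄(2)` contains four orthogonal classes `f i` of square `4` whose sum is twice a class of `D₄(2)`. If one adds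
to `v` the half of `∑ a i f i`, the `a i` being of the same parity, the numbers `c i = v . f i` change to
`c i + 2 a i` and `4 disc v / 3` changes by `∑ (c i + 2 a i)² - ∑ (c i)²`. The theorem of Lagrange on four squares and
its forms with conditions on the parity give all the values of the right class modulo `16` or `8`.
-/

set_option autoImplicit false

namespace Pool.Agent.Results.MP_ffd2c1_ag.Involutions

open Pool.Agent.Y95.Q Pool.Agent.Y95.Q.H4

/-- `X` is in the Hassett divisor `C_d`: there is a Hodge class `v` such that `h` and `v` span a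
saturated group of discriminant `d`. -/
def InDivisor {X : CubicFourfold} (H : H4 X) (d : ℤ) : Prop :=
  ∃ v, H.IsHodge v ∧ H.Saturated v ∧ H.disc v = d

/-- The published theorem that the cubic fourfolds in `C_14`, `C_26`, `C_38` and `C_42` are rational. -/
def FourDivisors {X : CubicFourfold} (H : H4 X) : Prop :=
  ∀ d : ℤ, (d = 14 ∨ d = 26 ∨ d = 38 ∨ d = 42) → InDivisor H d → X.IsRational

/-- The group of Hodge classes is generated by `h` and by classes of discriminant less than `n`. -/
def Generated {X : CubicFourfold} (H : H4 X) (n : ℤ) : Prop :=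
  ∀ v, H.IsHodge v → v ∈ Submodule.span ℤ (insert H.h {w | H.IsHodge w ∧ H.disc w < n})

/-- `e 0, …, e 3` are Hodge classes orthogonal to `h` whose products are twice the entries of the Cartan
matrix of `D₄`. -/
def IsD4 {X : CubicFourfold} (H : H4 X) (e : Fin 4 → Fin 23 → ℤ) : Prop :=
  (∀ i, H.IsHodge (e i) ∧ H.ip (e i) H.h = 0) ∧ ∀ i j, H.ip (e i) (e j) = 2 * CartanMatrix.D 4 i j

/-- **Hassett's conjecture for cubic fourfolds with an involution.** -/
theorem result {X : CubicFourfold} {H : H4 X} (hH : H.IsCohomology) :
    (∀ e, IsD4 H e →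
      -- the divisors which contain `X`
      (∀ v d, H.IsHodge v → H.disc v ≤ d → Squarefree d →
        (12 ∣ d - H.disc v ∨ ((∃ i, Odd (H.ip v (e i))) ∧ 6 ∣ d - H.disc v)) → InDivisor H d) ∧
      (∀ (P : X.Plane) i, Odd (H.ip (H.cl P) (e i)) → InDivisor H 14) ∧
      -- the criterion for an associated K3 surface
      (H.HasK3 ↔ ∃ v, H.IsHodge v ∧ ¬ 4 ∣ H.disc v) ∧
      -- a class of small discriminant
      (∀ v, H.IsHodge v → (H.disc v < 50 ∧ ¬ 4 ∣ H.disc v) ∨ (H.disc v < 44 ∧ ∃ i, Odd (H.ip v (e i))) →
        InDivisor H 38 ∨ InDivisor H 42) ∧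
      -- generators of small discriminant
      (Generated H 32 → (H.HasK3 ↔ InDivisor H 38 ∨ InDivisor H 42)) ∧
      (Generated H 32 → FourDivisors H → H.HasK3 → X.IsRational) ∧
      (Generated H 44 → (∃ v i, H.IsHodge v ∧ Odd (H.ip v (e i))) →
        (InDivisor H 38 ∨ InDivisor H 42) ∧ (FourDivisors H → X.IsRational))) ∧
    -- large rank
    (13 ≤ H.rank → ∃ v, H.IsHodge v ∧ ¬ 4 ∣ H.disc v) ∧
    (13 ≤ H.rank → Generated H 32 → ((∃ e, IsD4 H e) ∨ Nonempty X.Plane) →
      H.HasK3 ∧ (FourDivisors H → X.IsRational)) := by
  have conv : ∀ e, IsD4 H e → Pool.Agent.Helper63.EI.IsD4 H e := fun e he => he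
  have gen : ∀ e, IsD4 H e → Generated H 32 → (∃ v, H.IsHodge v ∧ ¬ 4 ∣ H.disc v) →
      InDivisor H 38 ∨ InDivisor H 42 := by
    rintro e he hG ⟨v, hv, h4⟩
    exact Pool.Agent.Helper63.EI.gen32 hH (conv e he) hG hv h4
  have back : (InDivisor H 38 ∨ InDivisor H 42) → H.HasK3 := by
    rintro (h | h)
    · exact Pool.Agent.Helper36K9.CF.hasK3_of h (by norm_num)
    · exact Pool.Agent.Helper36K9.CF.hasK3_of h (by norm_num)
  have rat : FourDivisors H → (InDivisor H 38 ∨ InDivisor H 42) → X.IsRational := by
    rintro hR (h | h)
    · exact hR 38 (by norm_num) h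
    · exact hR 42 (by norm_num) h
  have odd44 : ∀ e, IsD4 H e → ∀ v, H.IsHodge v → H.disc v < 44 → (∃ i, Odd (H.ip v (e i))) →
      InDivisor H 38 ∨ InDivisor H 42 := by
    intro e he v hv h44 ho
    have h6 := Pool.Agent.Helper36K9.CF.disc_mod6 hH v
    rcases h6 with h6 | h6
    · exact Or.inr (Pool.Agent.Helper63.EI.div12 hH (conv e he) hv (by omega)
        Pool.Agent.Helper63.EI.sqf42 (Or.inr ⟨ho, by omega⟩))
    · exact Or.inl (Pool.Agent.Helper63.EI.div12 hH (conv e he) hv (by omega)
        Pool.Agent.Helper63.EI.sqf38 (Or.inr ⟨ho, by omega⟩))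
  refine ⟨fun e he => ⟨?_, ?_, ?_, ?_, ?_, ?_, ?_⟩, ?_, ?_⟩
  · intro v d hv hd hs h
    exact Pool.Agent.Helper63.EI.div12 hH (conv e he) hv hd hs h
  · intro P i hi
    exact Pool.Agent.Helper63.EI.plane14 hH (conv e he) ((hH.cl_range _).1 ⟨P, rfl⟩) hi
  · exact Pool.Agent.Helper63.EI.hasK3_iff hH (conv e he)
  · rintro v hv (⟨h50, h4⟩ | ⟨h44, ho⟩)
    · exact Pool.Agent.Helper63.EI.small hH (conv e he) hv h4 h50
    · exact odd44 e he v hv h44 ho
  · intro hG
    exact ⟨fun h => gen e he hG ((Pool.Agent.Helper63.EI.hasK3_iff hH (conv e he)).1 h), back⟩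
  · intro hG hR h
    exact rat hR (gen e he hG ((Pool.Agent.Helper63.EI.hasK3_iff hH (conv e he)).1 h))
  · rintro hG ⟨v, i, hv, ho⟩
    have h1 : InDivisor H 38 ∨ InDivisor H 42 := by
      by_contra hcon
      have hev : ∀ w, w ∈ Submodule.span ℤ (insert H.h {w | H.IsHodge w ∧ H.disc w < 44}) →
          Even (H.ip w (e i)) := by
        intro w hw
        induction hw using Submodule.span_induction with
        | mem x hx =>
          rcases hx with rfl | ⟨hx, hxd⟩
          · rw [hH.comm, (he.1 i).2]
            exact Even.zero
          · by_contra hne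
            rw [Int.not_even_iff_odd] at hne
            exact hcon (odd44 e he x hx hxd ⟨i, hne⟩)
        | zero => rw [ip_zero_left]; exact Even.zero
        | add x y _ _ hx hy => rw [ip_add_left]; exact hx.add hy
        | smul a x _ hx => rw [ip_smul_left]; exact hx.mul_left _
      exact (Int.not_even_iff_odd.2 ho) (hev v (hG v hv))
    exact ⟨h1, fun hR => rat hR h1⟩
  · exact Pool.Agent.Helper63.EI.rank13 hH
  · intro h13 hG hor
    obtain ⟨v, hv, h4⟩ := Pool.Agent.Helper63.EI.rank13 hH h13
    rcases hor with ⟨e, he⟩ | ⟨⟨P⟩⟩
    · have h1 := gen e he hG ⟨v, hv, h4⟩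
      exact ⟨back h1, fun hR => rat hR h1⟩
    · have h1 : Pool.Agent.Helper36K9.CF.Known H :=
        Pool.Agent.Helper36K9.CF.plane_gen hH ((hH.cl_range _).1 ⟨P, rfl⟩) hG hv h4
      refine ⟨h1.hasK3 hH, fun hR => ?_⟩
      rcases h1 with ⟨d, hd, h⟩ | ⟨P', T, hT, ho⟩
      · exact hR d hd h
      · exact hH.hassett P' T hT ho

end Pool.Agent.Results.MP_ffd2c1_ag.Involutions
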