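import Pool.Agent.Helper36K9.CF.Scroll3

/-!
# Hassett's conjecture: planes, cubic scrolls and classes of small discriminant

Let `X` be a smooth cubic fourfold, and let `A(X)` be the lattice of its Hodge classes in
`H^4(X, ℤ)`. The cubic fourfolds which are known to be rational form the union of the following loci:
`C_14` (Bolognesi, Russo, Staglianò), `C_26`, `C_38`, `C_42` (Russo, Staglianò), and the cubic fourfolds
with a plane `P` and a Hodge class `T` such that `T.(h - P)` is odd (Hassett) (and parts of `C_18`,
not used here). All of them have an associated K3 surface. The following is proved.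

* If `X` contains a plane and lies in a Hassett divisor `C_d` with `d < 48` and `4 ∤ d`, then `X` is
  in the known locus. More generally it suffices that there are a plane `P` in `X` and a Hodge
  class `v` such that `4` does not divide the discriminant of `v`, and the Gram determinant of `h²`,
  `P` and `v` is less than `128`.
* Let `X` contain a plane, and let `A(X)` be generated by `h²` and classes of discriminant less than
  `32` (for instance by planes, cubic scrolls, Veronese surfaces, quartic scrolls, del Pezzo
  surfaces of degree five, ...); its rank is arbitrary. Then `X` has an associated K3 surface if and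
  only if `4` does not divide the discriminant of some Hodge class, if and only if `X` is in the known
  locus.
* If `X` has at least nine classes of cubic scrolls, two of them with an even product, and two of
  them with the product `3`, then `X` is in `C_42`.
* Let `A(X)` be generated by `h²` and classes of cubic scrolls, and let the rank of `A(X)` be at
  least six or the number of classes of cubic scrolls at least nine. Then `X` has an associated
  K3 surface if and only if it is in `C_42`.
* Let `A(X)` be generated by `h²`, planes and classes of cubic scrolls, and let `X` contain a plane, or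
  let the rank of `A(X)` be at least six, or let there be at least nine classes of cubic scrolls.
  Then `X` has an associated K3 surface if and only if it is in the known locus; so it is rational
  if it has an associated K3 surface, as predicted by the conjecture of Hassett.

Idea: in the presence of a plane `P` such that all products `T.(h - P)` are even, a class `v` whose
discriminant is `2` modulo `4` is reduced modulo `P` and `h`; if the discriminant is small then it is
`14`, `18`, `26`, `30`, `38` or `42`, and in the second and in the fourth case `v + P` has the discriminant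
`26` and `38`. Two generators with an odd product give such a class as their sum or their
difference. Cubic scrolls correspond to the primitive classes with the square `4`. If there is no
primitive class with the square `14` then a set of these classes with an odd product and a product
`0` has at most eight elements and the rank at most four; and if no product is odd, or if no product
is `0`, then the form is divisible modulo `4` or has rank one modulo `3`, so that there is no
admissible discriminant.
-/

set_option autoImplicit false

namespace Pool.Agent.Results.MP_ffd2c1_ag.PlanesAndScrolls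

open Pool.Agent.Y95.Q Pool.Agent.Y95.Q.H4

/-- `X` is in the Hassett divisor `C_d`: there is a Hodge class `v` such that `h` and `v` span a
saturated group of discriminant `d`. -/
def InDivisor {X : CubicFourfold} (H : H4 X) (d : ℤ) : Prop :=
  ∃ v, H.IsHodge v ∧ H.Saturated v ∧ H.disc v = d

/-- The published theorem that the cubic fourfolds in `C_14`, `C_26`, `C_38` and `C_42` are rational. -/
def FourDivisors {X : CubicFourfold} (H : H4 X) : Prop :=
  ∀ d : ℤ, (d = 14 ∨ d = 26 ∨ d = 38 ∨ d = 42) → InDivisor H d → X.IsRational

/-- `X` is in `C_14`, `C_26`, `C_38` or `C_42`, or there are a plane `P` and a Hodge class `T` such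
that the product of `T` with the quadric surfaces `h - P` is odd. -/
def InKnownLocus {X : CubicFourfold} (H : H4 X) : Prop :=
  (∃ d : ℤ, (d = 14 ∨ d = 26 ∨ d = 38 ∨ d = 42) ∧ InDivisor H d) ∨
    ∃ (P : X.Plane) (T : Fin 23 → ℤ), H.IsHodge T ∧ Odd (H.ip T (H.h - H.cl P))

/-- The Hodge class `T` has the degree and the self-intersection of a cubic scroll. -/
def ScrollClass {X : CubicFourfold} (H : H4 X) (T : Fin 23 → ℤ) : Prop :=
  H.IsHodge T ∧ H.ip T H.h = 3 ∧ H.ip T T = 7

/-- The group of Hodge classes is generated by `h` and by its elements in the set `G`. -/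
def GeneratedBy {X : CubicFourfold} (H : H4 X) (G : Set (Fin 23 → ℤ)) : Prop :=
  ∀ v, H.IsHodge v → v ∈ Submodule.span ℤ (insert H.h {w | H.IsHodge w ∧ w ∈ G})

/-- The Gram matrix of `h`, `P` and `v`. -/
def gram {X : CubicFourfold} (H : H4 X) (P v : Fin 23 → ℤ) : Matrix (Fin 3) (Fin 3) ℤ :=
  Matrix.of fun i j => H.ip (![H.h, P, v] i) (![H.h, P, v] j)

/-- There are two classes of cubic scrolls with an even product. -/
def EvenPair {X : CubicFourfold} (H : H4 X) : Prop :=
  ∃ T T', ScrollClass H T ∧ ScrollClass H T' ∧ Even (H.ip T T')

/-- There are two classes of cubic scrolls with the product `3`. -/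
def ThreePair {X : CubicFourfold} (H : H4 X) : Prop :=
  ∃ T T', ScrollClass H T ∧ ScrollClass H T' ∧ H.ip T T' = 3

/-- The number of the classes of cubic scrolls is at least nine, or the rank of the group of Hodge
classes is at least six. -/
def Many {X : CubicFourfold} (H : H4 X) : Prop :=
  9 ≤ Set.encard {T | ScrollClass H T} ∨ 6 ≤ H.rank

/-- **Hassett's conjecture for cubic fourfolds with a plane and classes of small discriminant, and for
cubic fourfolds with many cubic scrolls.** -/
theorem result {X : CubicFourfold} {H : H4 X} (hH : H.IsCohomology) :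
    -- the known locus: associated K3 surfaces, rationality
    (InKnownLocus H → H.HasK3 ∧ (FourDivisors H → X.IsRational)) ∧
    -- a plane, and a class of small discriminant
    (∀ (P : X.Plane) (v : Fin 23 → ℤ), H.IsHodge v → ¬ 4 ∣ H.disc v →
      (gram H (H.cl P) v).det < 128 → InKnownLocus H) ∧
    (Nonempty X.Plane → ∀ d < 48, ¬ 4 ∣ d → InDivisor H d → InKnownLocus H) ∧
    -- a plane, and generators of small discriminant
    (Nonempty X.Plane → GeneratedBy H {w | H.disc w < 32} →
      (H.HasK3 ↔ InKnownLocus H) ∧ (H.HasK3 ↔ ∃ v, H.IsHodge v ∧ ¬ 4 ∣ H.disc v)) ∧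
    -- many cubic scrolls
    (9 ≤ Set.encard {T | ScrollClass H T} → EvenPair H → ThreePair H → InDivisor H 42) ∧
    -- generators which are cubic scrolls
    (GeneratedBy H {T | ScrollClass H T} → Many H → (H.HasK3 ↔ InDivisor H 42)) ∧
    -- generators which are planes and cubic scrolls
    (GeneratedBy H (Set.range H.cl ∪ {T | ScrollClass H T}) → (Nonempty X.Plane ∨ Many H) →
      (H.HasK3 ↔ InKnownLocus H)) := by
  have hpl : ∀ P : X.Plane, H.IsPl (H.cl P) := fun P => (hH.cl_range _).1 ⟨P, rfl⟩
  have hKn : InKnownLocus H ↔ Pool.Agent.Helper36K9.CF.Known H := Iff.rfl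
  have hdet : ∀ (P : X.Plane) (v : Fin 23 → ℤ), 3 * (gram H (H.cl P) v).det =
      8 * H.disc v - Pool.Agent.Helper36K9.CF.bb H (H.cl P) v ^ 2 := by
    intro P v
    obtain ⟨h1, h2, h3⟩ := hpl P
    have h2' : H.ip H.h (H.cl P) = 1 := (hH.comm _ _).trans h2
    rw [gram, Matrix.det_fin_three]
    simp only [Matrix.of_apply, Matrix.cons_val_zero, Matrix.cons_val_one, Matrix.cons_val,
      hH.h_self, h2, h2', h3, hH.comm v H.h, hH.comm v (H.cl P), disc,
      Pool.Agent.Helper36K9.CF.bb]
    ring
  have part3 : Nonempty X.Plane → GeneratedBy H {w | H.disc w < 32} →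
      (H.HasK3 ↔ InKnownLocus H) ∧ (H.HasK3 ↔ ∃ v, H.IsHodge v ∧ ¬ 4 ∣ H.disc v) := by
    rintro ⟨P⟩ hG
    have e1 : H.HasK3 → ∃ v, H.IsHodge v ∧ ¬ 4 ∣ H.disc v := by
      rintro ⟨v, hv, -, hA⟩
      exact ⟨v, hv, hA.2.1⟩
    have e2 : (∃ v, H.IsHodge v ∧ ¬ 4 ∣ H.disc v) → InKnownLocus H := by
      rintro ⟨v, hv, h4⟩
      exact Pool.Agent.Helper36K9.CF.plane_gen hH (hpl P) hG hv h4
    have e3 : InKnownLocus H → H.HasK3 := fun h =>
      Pool.Agent.Helper36K9.CF.Known.hasK3 hH h
    exact ⟨⟨fun h => e2 (e1 h), e3⟩, ⟨e1, fun h => e3 (e2 h)⟩⟩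
  have part5 : GeneratedBy H {T | ScrollClass H T} → Many H →
      (H.HasK3 ↔ InDivisor H 42) := by
    intro hG hM
    have hG' : ∀ v, H.IsHodge v → v ∈ Submodule.span ℤ
        (insert H.h {T | Pool.Agent.Helper36K9.CF.IsScr H T}) := by
      intro v hv
      refine Submodule.span_mono ?_ (hG v hv)
      exact Set.insert_subset_insert fun T hT => hT.2
    have h9 : 9 ≤ Set.encard {T | Pool.Agent.Helper36K9.CF.IsScr H T} ∨ (6 ≤ H.rank ∧
        ∀ v, H.IsHodge v → v ∈ Submodule.span ℤ
          (insert H.h {T | Pool.Agent.Helper36K9.CF.IsScr H T})) := by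
      rcases hM with h | h
      · exact Or.inl h
      · exact Or.inr ⟨h, hG'⟩
    constructor
    · rintro ⟨v, hv, -, hA⟩
      rcases Pool.Agent.Helper36K9.CF.No14_or hH with hN | h
      · have h1 := Pool.Agent.Helper36K9.CF.scr_gen hH hG' hN hv hA
        exact Pool.Agent.Helper36K9.CF.scr_main hH h9 h1.1 h1.2
      · exact h
    · intro h
      exact Pool.Agent.Helper36K9.CF.hasK3_of h (by norm_num)
  refine ⟨fun h => ⟨Pool.Agent.Helper36K9.CF.Known.hasK3 hH h, fun hR => ?_⟩, ?_, ?_, part3, ?_,
    part5, ?_⟩
  · rcases h with ⟨d, hd, h⟩ | ⟨P, T, hT, ho⟩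
    · exact hR d hd h
    · exact hH.hassett P T hT ho
  · intro P v hv h4 hlt
    refine Pool.Agent.Helper36K9.CF.plane_small hH (hpl P) hv h4 ?_
    rw [← hdet P v]
    linarith
  · rintro ⟨P⟩ d hd h4 ⟨v, hv, -, rfl⟩
    refine Pool.Agent.Helper36K9.CF.plane_small hH (hpl P) hv h4 ?_
    nlinarith [sq_nonneg (Pool.Agent.Helper36K9.CF.bb H (H.cl P) v)]
  · intro h9 he h3
    exact Pool.Agent.Helper36K9.CF.scr_main hH (Or.inl h9) he h3
  · intro hG hor
    by_cases hP : Nonempty X.Plane
    · refine (part3 hP ?_).1
      intro v hv
      refine Submodule.span_mono ?_ (hG v hv)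
      refine Set.insert_subset_insert ?_
      rintro T ⟨hT0, (⟨P, rfl⟩ | hT)⟩
      · obtain ⟨h1, h2, h3⟩ := hpl P
        refine ⟨h1, ?_⟩
        change H.disc (H.cl P) < 32
        rw [disc, hH.comm H.h, h2, h3]
        norm_num
      · refine ⟨hT0, ?_⟩
        change H.disc T < 32
        rw [disc, hH.comm H.h, hT.2.1, hT.2.2]
        norm_num
    · have hM : Many H := hor.resolve_left hP
      constructor
      · intro hK
        refine Or.inl ⟨42, by norm_num, (part5 ?_ hM).1 hK⟩
        intro v hv
        refine Submodule.span_mono ?_ (hG v hv)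
        refine Set.insert_subset_insert ?_
        rintro T ⟨hT0, (⟨P, rfl⟩ | hT)⟩
        · exact absurd ⟨P⟩ hP
        · exact ⟨hT0, hT⟩
      · exact fun h => Pool.Agent.Helper36K9.CF.Known.hasK3 hH h

end Pool.Agent.Results.MP_ffd2c1_ag.PlanesAndScrolls
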