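import Pool.Agent.Helper63.EI.Eck

/-!
# Planes in cubic fourfolds whose Hodge classes have a large rank

Let `X` be a smooth cubic fourfold and let `A(X)` be the group of the Hodge classes in `H^4(X, ℤ)`. Let
`P 0, …, P (n - 1)` be planes in `X`, and let `M` be the matrix whose entry `i, j` is `1` if `P i . P j = 1`, that is, if
the two planes meet in one point, and `0` otherwise. It is proved: if the determinant of `M` is odd and
the rank of `A(X)` is at least `24 - n`, then `T.(h² - Q)` is odd for some plane `Q` in `X` and some `T` in
`A(X)`, and so `X` is rational (Hassett) and has an associated K3 surface.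

For instance, the determinant is odd if `n` is even and the planes meet pairwise in one point, or if
the planes are `n / 2` pairs which meet in one point, and planes of different pairs meet in lines. The theorem can be
applied with `4` planes if the rank is `20` or `21`, with `6` planes if the rank is at least `18`, with `8` planes if it
is at least `16`, with `10` planes if it is at least `14`. (In general `n` planes whose matrix has rank `r` modulo
`2` contain `r` planes with an odd determinant.) In the theorem `ManyPlanes` the number of planes has to be at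
least `2 ^ (23 - ρ)`, where `ρ` is the rank of `A(X)`.

Idea: if all `T.(h² - Q)` are even then the `n` classes `h² - P i` are orthogonal modulo `2` to
`A(X)`. By the determinant they are independent modulo `2` in `A(X)`, and `A(X)` is saturated in `H^4(X, ℤ)`, which is
unimodular of rank `23`.
-/

set_option autoImplicit false

namespace Pool.Agent.Results.MP_ffd2c1_ag.RankAndPlanes

open Pool.Agent.Y95.Q

/-- The matrix with the entries `1` if `P i . P j = 1` and `0` otherwise. -/
def meeting {X : CubicFourfold} (H : H4 X) {n : ℕ} (P : Fin n → X.Plane) : Matrix (Fin n) (Fin n) ℤ :=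
  Matrix.of fun i j => if H.ip (H.cl (P i)) (H.cl (P j)) = 1 then 1 else 0

/-- **Planes with an odd determinant and large rank.** -/
theorem result {X : CubicFourfold} {H : H4 X} (hH : H.IsCohomology) {n : ℕ} (P : Fin n → X.Plane)
    (hdet : Odd (meeting H P).det) (hr : 24 ≤ H.rank + n) :
    (∃ (Q : X.Plane) (T : Fin 23 → ℤ), H.IsHodge T ∧ Odd (H.ip T (H.h - H.cl Q))) ∧
      X.IsRational ∧ H.HasK3 := by
  have h1 : ¬ H.AllEven := Pool.Agent.Helper63.EI.rank_pl hH (fun i => H.cl (P i))
    (fun i => (hH.cl_range _).1 ⟨P i, rfl⟩) hdet hr
  refine ⟨?_, hH.of_not_allEven h1⟩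
  unfold H4.AllEven at h1
  push Not at h1
  obtain ⟨Q, hQ, T, hT, hodd⟩ := h1
  rw [Int.not_even_iff_odd] at hodd
  obtain ⟨Q', rfl⟩ := (hH.cl_range Q).2 hQ
  exact ⟨Q', T, hT, hodd⟩

end Pool.Agent.Results.MP_ffd2c1_ag.RankAndPlanes
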